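import Pool.Agent.Helper51.PP.Spec

/-!
# Swarm PC, part CH6: first moments against entropy
-/

set_option autoImplicit false

namespace Pool.Agent.Helper18.PC.CH6

open Pool.Agent.Helper51.PP
open scoped BigOperators

variable {X E : Type} [Fintype E]

theorem PRn_succ' (nx : X → E → X) (f : X → ℝ) (n : ℕ) :
    PRn nx f (n + 1) = PRn nx (PR nx f) n := by
  induction n with
  | zero => rfl
  | succ n ih =>
    show PR nx (PRn nx f (n + 1)) = PR nx (PRn nx (PR nx f) n)
    rw [ih]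

/-- a step in direction `e` as a bijection -/
def stepEquiv {nx : X → E → X} {rev : E → E} (h : RevChain nx rev) (e : E) : X ≃ X where
  toFun x := nx x e
  invFun y := nx y (rev e)
  left_inv x := h.back x e
  right_inv y := by
    have := h.back y (rev e)
    rwa [h.inv] at this

/-- the reversal as a bijection -/
def revEquiv {nx : X → E → X} {rev : E → E} (h : RevChain nx rev) : E ≃ E where
  toFun := rev
  invFun := rev
  left_inv := h.inv
  right_inv := h.inv

theorem main (h1 : S_CH1) (h5 : S_CH5) : S_CH6 := by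
  intro X E _ _ nx rev h u x0 n
  classical
  obtain ⟨hp0, hpf, -, hpn, -, -⟩ := h1 nx rev h x0 n
  obtain ⟨hp0', hpf', -, hpn', -, -⟩ := h1 nx rev h x0 (n + 1)
  have h5' := h5 nx rev h x0 n
  have hp'eq : ∀ x, pk nx x0 (n + 1) x = (Fintype.card E : ℝ)⁻¹ * ∑ e, pk nx x0 n (nx x e) :=
    fun x => rfl
  set p : X → ℝ := pk nx x0 n with hp
  set p' : X → ℝ := pk nx x0 (n + 1) with hp'
  have hcard : (0 : ℝ) < Fintype.card E := by exact_mod_cast Fintype.card_pos
  set c : ℝ := (Fintype.card E : ℝ)⁻¹ with hc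
  have hcpos : 0 < c := inv_pos.2 hcard
  have hcE : c * (Fintype.card E : ℝ) = 1 := inv_mul_cancel₀ hcard.ne'
  -- the finite set
  obtain ⟨S, hS', hSq⟩ : ∃ S : Finset X, (∀ x, x ∉ S → p' x = 0) ∧
      (∀ x, x ∉ S → ∀ e, p (nx x e) = 0) := by
    refine ⟨hpf'.toFinset ∪ Finset.univ.biUnion
      (fun e => hpf.toFinset.image (fun y => nx y (rev e))), ?_, ?_⟩
    · intro x hx
      by_contra hne
      exact hx (Finset.mem_union_left _ (by simpa using hne))
    · intro x hx e
      by_contra hne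
      apply hx
      refine Finset.mem_union_right _ (Finset.mem_biUnion.2 ⟨e, Finset.mem_univ _, ?_⟩)
      exact Finset.mem_image.2 ⟨nx x e, by simpa using hne, h.back x e⟩
  -- reindexing
  have hre : ∀ (f : X → ℝ) (e : E), ∑' y, p y * f y = ∑ x ∈ S, p (nx x e) * f (nx x e) := by
    intro f e
    rw [← (stepEquiv h e).tsum_eq]
    show ∑' x, p (nx x e) * f (nx x e) = _
    exact tsum_eq_sum (fun x hx => by rw [hSq x hx e, zero_mul])
  have hsum' : ∀ f : X → ℝ, ∑' y, p' y * f y = ∑ x ∈ S, p' x * f x := by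
    intro f
    exact tsum_eq_sum (fun x hx => by rw [hS' x hx, zero_mul])
  -- the moments
  have hMn : PRn nx (fun y => |u y|) n x0 =
      c * ∑ e, ∑ x ∈ S, p (nx x e) * |u (nx x e)| := by
    rw [hpn]
    have : ∀ e ∈ (Finset.univ : Finset E), ∑ x ∈ S, p (nx x e) * |u (nx x e)| =
        ∑' y, p y * |u y| := fun e _ => (hre (fun y => |u y|) e).symm
    rw [Finset.sum_congr rfl this, Finset.sum_const, Finset.card_univ, nsmul_eq_mul, ← mul_assoc,
      hcE, one_mul]
  have hMn2 : PRn nx (fun y => |u y|) (n + 2) x0 =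
      c * ∑ e, ∑ x ∈ S, p' x * |u (nx x e)| := by
    rw [show n + 2 = (n + 1) + 1 from rfl, PRn_succ', hpn', hsum']
    rw [Finset.sum_comm, Finset.mul_sum]
    refine Finset.sum_congr rfl fun x _ => ?_
    show p' x * (c * ∑ e, |u (nx x e)|) = _
    rw [← Finset.mul_sum]
    ring
  have hzero : c * ∑ e, ∑ x ∈ S, |u x| * (p' x - p (nx x e)) = 0 := by
    rw [Finset.sum_comm, Finset.mul_sum]
    refine Finset.sum_eq_zero fun x _ => ?_
    rw [← Finset.mul_sum, Finset.sum_sub_distrib, Finset.sum_const, Finset.card_univ,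
      nsmul_eq_mul]
    have := hp'eq x
    have h2 : c * ((Fintype.card E : ℝ) * p' x - ∑ e, p (nx x e)) = 0 := by
      rw [mul_sub, ← mul_assoc, hcE, one_mul, this, sub_self]
    calc c * (|u x| * ((Fintype.card E : ℝ) * p' x - ∑ e, p (nx x e)))
        = |u x| * (c * ((Fintype.card E : ℝ) * p' x - ∑ e, p (nx x e))) := by ring
      _ = 0 := by rw [h2, mul_zero]
  have hF' : PRn nx (Vf (grad nx u)) (n + 1) x0 =
      c * ∑ e, ∑ x ∈ S, p' x * (grad nx u x e) ^ 2 := by
    rw [hpn', hsum', Finset.sum_comm, Finset.mul_sum]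
    refine Finset.sum_congr rfl fun x _ => ?_
    show p' x * (c * ∑ e, (grad nx u x e) ^ 2) = _
    rw [← Finset.mul_sum]
    ring
  have hF : PRn nx (Vf (grad nx u)) n x0 =
      c * ∑ e, ∑ x ∈ S, p (nx x e) * (grad nx u x e) ^ 2 := by
    rw [hpn]
    have e1 : ∑' y, p y * Vf (grad nx u) y = c * ∑ e, ∑' y, p y * (grad nx u y e) ^ 2 := by
      have : ∀ y ∉ hpf.toFinset, p y = 0 := by
        intro y hy
        by_contra hne
        exact hy (by simpa using hne)
      rw [tsum_eq_sum (s := hpf.toFinset) (fun y hy => by rw [this y hy, zero_mul])]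
      have : ∀ e ∈ (Finset.univ : Finset E), ∑' y, p y * (grad nx u y e) ^ 2 =
          ∑ y ∈ hpf.toFinset, p y * (grad nx u y e) ^ 2 := fun e _ =>
        tsum_eq_sum (s := hpf.toFinset) (fun y hy => by rw [this y hy, zero_mul])
      rw [Finset.sum_congr rfl this, Finset.sum_comm, Finset.mul_sum]
      refine Finset.sum_congr rfl fun x _ => ?_
      show p x * (c * ∑ e, (grad nx u x e) ^ 2) = _
      rw [← Finset.mul_sum]
      ring
    rw [e1, ← (revEquiv h).sum_comp]
    congr 1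
    refine Finset.sum_congr rfl fun e _ => ?_
    show ∑' y, p y * (grad nx u y (rev e)) ^ 2 = _
    rw [hre (fun y => (grad nx u y (rev e)) ^ 2) e]
    refine Finset.sum_congr rfl fun x _ => ?_
    show p (nx x e) * (u (nx (nx x e) (rev e)) - u (nx x e)) ^ 2 =
      p (nx x e) * (u (nx x e) - u x) ^ 2
    rw [h.back]
    ring
  -- the entropy term
  have hent : c * ∑ e, ∑ x ∈ S, (p (nx x e) - p' x) ^ 2 / (p (nx x e) + p' x) ≤
      2 * (ent nx x0 (n + 1) - ent nx x0 n) := by
    have : ∀ e ∈ (Finset.univ : Finset E),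
        ∑' y, (p (nx y e) - p' y) ^ 2 / (p (nx y e) + p' y) =
        ∑ x ∈ S, (p (nx x e) - p' x) ^ 2 / (p (nx x e) + p' x) := fun e _ =>
      tsum_eq_sum (s := S) (fun y hy => by rw [hS' y hy, hSq y hy e]; simp)
    rw [Finset.sum_congr rfl this] at h5'
    linarith
  -- Cauchy-Schwarz
  have hnn : ∀ x e, 0 ≤ p (nx x e) + p' x := fun x e => add_nonneg (hp0 _) (hp0' _)
  have key : PRn nx (fun y => |u y|) (n + 2) x0 - PRn nx (fun y => |u y|) n x0 ≤
      c * ∑ e, ∑ x ∈ S, |grad nx u x e| * |p (nx x e) - p' x| := by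
    have : PRn nx (fun y => |u y|) (n + 2) x0 - PRn nx (fun y => |u y|) n x0 =
        c * ∑ e, ∑ x ∈ S, (|u (nx x e)| - |u x|) * (p' x - p (nx x e)) := by
      rw [hMn, hMn2, ← sub_zero (_ - _), ← hzero, ← mul_sub, ← mul_sub,
        ← Finset.sum_sub_distrib, ← Finset.sum_sub_distrib]
      congr 1
      refine Finset.sum_congr rfl fun e _ => ?_
      rw [← Finset.sum_sub_distrib, ← Finset.sum_sub_distrib]
      refine Finset.sum_congr rfl fun x _ => ?_
      ring
    rw [this]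
    refine mul_le_mul_of_nonneg_left ?_ hcpos.le
    refine Finset.sum_le_sum fun e _ => Finset.sum_le_sum fun x _ => ?_
    calc (|u (nx x e)| - |u x|) * (p' x - p (nx x e))
        ≤ |(|u (nx x e)| - |u x|) * (p' x - p (nx x e))| := le_abs_self _
      _ = |(|u (nx x e)| - |u x|)| * |p (nx x e) - p' x| := by
          rw [abs_mul, abs_sub_comm (p' x)]
      _ ≤ |grad nx u x e| * |p (nx x e) - p' x| := by
          refine mul_le_mul_of_nonneg_right ?_ (abs_nonneg _)
          exact abs_abs_sub_abs_le_abs_sub _ _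
  have cs : ∑ z ∈ (Finset.univ : Finset E) ×ˢ S,
      |grad nx u z.2 z.1| * |p (nx z.2 z.1) - p' z.2| ≤
      √(∑ z ∈ (Finset.univ : Finset E) ×ˢ S,
        (p (nx z.2 z.1) + p' z.2) * (grad nx u z.2 z.1) ^ 2) *
      √(∑ z ∈ (Finset.univ : Finset E) ×ˢ S,
        (p (nx z.2 z.1) - p' z.2) ^ 2 / (p (nx z.2 z.1) + p' z.2)) := by
    have hcs := Real.sum_mul_le_sqrt_mul_sqrt ((Finset.univ : Finset E) ×ˢ S)
      (fun z => √(p (nx z.2 z.1) + p' z.2) * |grad nx u z.2 z.1|)
      (fun z => |p (nx z.2 z.1) - p' z.2| / √(p (nx z.2 z.1) + p' z.2))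
    have e1 : ∑ z ∈ (Finset.univ : Finset E) ×ˢ S,
        (√(p (nx z.2 z.1) + p' z.2) * |grad nx u z.2 z.1|) *
        (|p (nx z.2 z.1) - p' z.2| / √(p (nx z.2 z.1) + p' z.2)) =
        ∑ z ∈ (Finset.univ : Finset E) ×ˢ S,
        |grad nx u z.2 z.1| * |p (nx z.2 z.1) - p' z.2| := by
      refine Finset.sum_congr rfl fun z _ => ?_
      rcases (hnn z.2 z.1).lt_or_eq with hlt | heq
      · have : √(p (nx z.2 z.1) + p' z.2) ≠ 0 := (Real.sqrt_pos.2 hlt).ne'
        field_simp
      · have h1 : p (nx z.2 z.1) = 0 := by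
          have := hp0 (nx z.2 z.1); have := hp0' z.2; linarith
        have h2 : p' z.2 = 0 := by
          have := hp0 (nx z.2 z.1); have := hp0' z.2; linarith
        rw [h1, h2]
        simp
    have e2 : ∑ z ∈ (Finset.univ : Finset E) ×ˢ S,
        (√(p (nx z.2 z.1) + p' z.2) * |grad nx u z.2 z.1|) ^ 2 =
        ∑ z ∈ (Finset.univ : Finset E) ×ˢ S,
        (p (nx z.2 z.1) + p' z.2) * (grad nx u z.2 z.1) ^ 2 := by
      refine Finset.sum_congr rfl fun z _ => ?_
      rw [mul_pow, Real.sq_sqrt (hnn _ _), sq_abs]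
    have e3 : ∑ z ∈ (Finset.univ : Finset E) ×ˢ S,
        (|p (nx z.2 z.1) - p' z.2| / √(p (nx z.2 z.1) + p' z.2)) ^ 2 =
        ∑ z ∈ (Finset.univ : Finset E) ×ˢ S,
        (p (nx z.2 z.1) - p' z.2) ^ 2 / (p (nx z.2 z.1) + p' z.2) := by
      refine Finset.sum_congr rfl fun z _ => ?_
      rw [div_pow, Real.sq_sqrt (hnn _ _), sq_abs]
    rw [e1, e2, e3] at hcs
    exact hcs
  rw [Finset.sum_product, Finset.sum_product, Finset.sum_product] at cs
  simp only at cs
  set A := ∑ e, ∑ x ∈ S, (p (nx x e) + p' x) * (grad nx u x e) ^ 2 with hA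
  set B := ∑ e, ∑ x ∈ S, (p (nx x e) - p' x) ^ 2 / (p (nx x e) + p' x) with hB
  have hA0 : 0 ≤ A := Finset.sum_nonneg fun e _ => Finset.sum_nonneg fun x _ =>
    mul_nonneg (hnn _ _) (sq_nonneg _)
  have hB0 : 0 ≤ B := Finset.sum_nonneg fun e _ => Finset.sum_nonneg fun x _ =>
    div_nonneg (sq_nonneg _) (hnn _ _)
  have hAeq : c * A = PRn nx (Vf (grad nx u)) n x0 + PRn nx (Vf (grad nx u)) (n + 1) x0 := by
    rw [hF, hF', ← mul_add, ← Finset.sum_add_distrib, hA]
    congr 1
    refine Finset.sum_congr rfl fun e _ => ?_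
    rw [← Finset.sum_add_distrib]
    refine Finset.sum_congr rfl fun x _ => ?_
    ring
  have hfin : PRn nx (fun y => |u y|) (n + 2) x0 - PRn nx (fun y => |u y|) n x0 ≤
      √(2 * (PRn nx (Vf (grad nx u)) n x0 + PRn nx (Vf (grad nx u)) (n + 1) x0) *
        (ent nx x0 (n + 1) - ent nx x0 n)) := by
    refine key.trans ?_
    have h3 : c * ∑ e, ∑ x ∈ S, |grad nx u x e| * |p (nx x e) - p' x| ≤
        √((c * A) * (c * B)) := by
      have h4 : √((c * A) * (c * B)) = c * (√A * √B) := by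
        rw [show (c * A) * (c * B) = c ^ 2 * (A * B) by ring, Real.sqrt_mul (sq_nonneg c),
          Real.sqrt_sq hcpos.le, Real.sqrt_mul hA0]
      rw [h4]
      exact mul_le_mul_of_nonneg_left cs hcpos.le
    refine h3.trans (Real.sqrt_le_sqrt ?_)
    rw [← hAeq]
    have := mul_le_mul_of_nonneg_left hent (mul_nonneg hcpos.le hA0)
    calc c * A * (c * B) ≤ c * A * (2 * (ent nx x0 (n + 1) - ent nx x0 n)) := this
      _ = _ := by ring
  linarith

end Pool.Agent.Helper18.PC.CH6
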