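import Pool.Agent.Helper51.PP.Spec

/-!
# Swarm PC, part WEYL: the decomposition of antisymmetric fields
-/

set_option autoImplicit false

namespace Pool.Agent.Helper18.PC.WEYL

open MeasureTheory Filter Topology
open Pool.Agent.Helper51.PP
open scoped ENNReal BigOperators InnerProductSpace

variable {Ω E : Type} [MeasurableSpace Ω] [Fintype E]

/-- the Hilbert space of fields -/
abbrev HF (μ : Measure Ω) (E : Type) [Fintype E] : Type := PiLp 2 (fun _ : E => Lp ℝ 2 μ)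

/-- the class of a field -/
noncomputable def cl {μ : Measure Ω} (w : Ω → E → ℝ) (hw : ∀ e, MemLp (fun ω => w ω e) 2 μ) :
    HF μ E :=
  WithLp.toLp 2 (fun e => (hw e).toLp (fun ω => w ω e))

theorem cl_ae {μ : Measure Ω} (w : Ω → E → ℝ) (hw : ∀ e, MemLp (fun ω => w ω e) 2 μ) (e : E) :
    ((cl w hw) e : Ω → ℝ) =ᵐ[μ] fun ω => w ω e :=
  (hw e).coeFn_toLp

theorem inner_eq {μ : Measure Ω} (v w : HF μ E) :
    ⟪v, w⟫_ℝ = ∑ e, ∫ ω, (v e : Ω → ℝ) ω * (w e : Ω → ℝ) ω ∂μ := by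
  rw [PiLp.inner_apply]
  refine Finset.sum_congr rfl fun e _ => ?_
  rw [MeasureTheory.L2.inner_def]
  refine integral_congr_ae (Filter.Eventually.of_forall fun ω => ?_)
  simp [mul_comm]

theorem inner_cl {μ : Measure Ω} (v : HF μ E) (w : Ω → E → ℝ)
    (hw : ∀ e, MemLp (fun ω => w ω e) 2 μ) :
    ⟪cl w hw, v⟫_ℝ = ∑ e, ∫ ω, (v e : Ω → ℝ) ω * w ω e ∂μ := by
  rw [inner_eq]
  refine Finset.sum_congr rfl fun e _ => ?_
  refine integral_congr_ae ?_
  filter_upwards [cl_ae w hw e] with ω h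
  rw [h, mul_comm]

theorem memLp_bdd {μ : Measure Ω} [IsFiniteMeasure μ] {ψ : Ω → ℝ} (hψ : Measurable ψ)
    (hb : ∃ B : ℝ, ∀ ω, |ψ ω| ≤ B) : MemLp ψ 2 μ := by
  obtain ⟨B, hB⟩ := hb
  exact MemLp.of_bound hψ.aestronglyMeasurable B
    (Filter.Eventually.of_forall fun ω => by rw [Real.norm_eq_abs]; exact hB ω)

theorem memLp_comp {μ : Measure Ω} {T : Ω → E → Ω} {rev : E → E} (hM : MPS μ T rev)
    {f : Ω → ℝ} (hf : MemLp f 2 μ) (e : E) : MemLp (fun ω => f (T ω e)) 2 μ :=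
  hf.comp_measurePreserving (hM.mp e)

theorem anti_sum {μ : Measure Ω} [IsFiniteMeasure μ] {T : Ω → E → Ω} {rev : E → E}
    (hM : MPS μ T rev) (w : Ω → E → ℝ) (hw : ∀ e, MemLp (fun ω => w ω e) 2 μ)
    (ha : ∀ e, ∀ᵐ ω ∂μ, w (T ω e) (rev e) = -w ω e) (ψ : Ω → ℝ) (hψ : Measurable ψ) :
    ∑ e, ∫ ω, w ω e * ψ (T ω e) ∂μ = -∑ e, ∫ ω, w ω e * ψ ω ∂μ := by
  have h1 : ∀ e, ∫ ω, w ω e * ψ (T ω e) ∂μ = -∫ ω, w ω (rev e) * ψ ω ∂μ := by
    intro e
    have h2 : ∫ ω, w ω (rev e) * ψ ω ∂μ = ∫ ω, w (T ω e) (rev e) * ψ (T ω e) ∂μ := by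
      have hm : AEStronglyMeasurable (fun ω => w ω (rev e) * ψ ω) μ :=
        (hw (rev e)).aestronglyMeasurable.mul hψ.aestronglyMeasurable
      have h3 := integral_map (μ := μ) (φ := fun ω => T ω e) (hM.mp e).measurable.aemeasurable
        (f := fun ω => w ω (rev e) * ψ ω) (by rw [(hM.mp e).map_eq]; exact hm)
      rw [(hM.mp e).map_eq] at h3
      exact h3
    rw [h2, ← integral_neg]
    refine integral_congr_ae ?_
    filter_upwards [ha e] with ω hω
    rw [hω]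
    ring
  rw [Finset.sum_congr rfl (fun e _ => h1 e), Finset.sum_neg_distrib]
  congr 1
  exact (Equiv.mk rev rev hM.inv hM.inv).sum_comp (fun e => ∫ ω, w ω e * ψ ω ∂μ)

theorem grad_anti {μ : Measure Ω} {T : Ω → E → Ω} {rev : E → E} (hM : MPS μ T rev)
    (ψ : Ω → ℝ) (e : E) : ∀ᵐ ω ∂μ, grad T ψ (T ω e) (rev e) = -grad T ψ ω e := by
  filter_upwards [hM.back e] with ω hω
  show ψ (T (T ω e) (rev e)) - ψ (T ω e) = -(ψ (T ω e) - ψ ω)
  rw [hω]
  ring

theorem memLp_grad {μ : Measure Ω} {T : Ω → E → Ω} {rev : E → E} (hM : MPS μ T rev)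
    {ψ : Ω → ℝ} (hψ : MemLp ψ 2 μ) (e : E) : MemLp (fun ω => grad T ψ ω e) 2 μ :=
  (memLp_comp hM hψ e).sub hψ

theorem main : S_WEYL := by
  intro Ω E _ _ _ μ _ T rev hM c hcm hcL hca
  classical
  -- the space of gradients
  let G : Submodule ℝ (HF μ E) :=
    { carrier := {v | ∃ ψ : Ω → ℝ, Measurable ψ ∧ (∃ B : ℝ, ∀ ω, |ψ ω| ≤ B) ∧
        ∀ e, (v e : Ω → ℝ) =ᵐ[μ] fun ω => grad T ψ ω e}
      add_mem' := by
        rintro v w ⟨ψ, hψ, ⟨B, hB⟩, hv⟩ ⟨φ, hφ, ⟨C, hC⟩, hw⟩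
        refine ⟨fun ω => ψ ω + φ ω, hψ.add hφ, ⟨B + C, fun ω =>
          (abs_add_le _ _).trans (add_le_add (hB ω) (hC ω))⟩, fun e => ?_⟩
        have h1 : ((v + w) e : Lp ℝ 2 μ) = v e + w e := rfl
        rw [h1]
        filter_upwards [Lp.coeFn_add (v e) (w e), hv e, hw e] with ω h1 h2 h3
        rw [h1, Pi.add_apply, h2, h3]
        simp only [grad]
        ring
      zero_mem' := by
        refine ⟨fun _ => 0, measurable_const, ⟨0, fun ω => by simp⟩, fun e => ?_⟩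
        have h1 : ((0 : HF μ E) e : Lp ℝ 2 μ) = 0 := rfl
        rw [h1]
        filter_upwards [Lp.coeFn_zero ℝ 2 μ] with ω h1
        rw [h1]
        simp [grad]
      smul_mem' := by
        rintro a v ⟨ψ, hψ, ⟨B, hB⟩, hv⟩
        refine ⟨fun ω => a * ψ ω, hψ.const_mul a, ⟨|a| * B, fun ω => by
          rw [abs_mul]; exact mul_le_mul_of_nonneg_left (hB ω) (abs_nonneg a)⟩, fun e => ?_⟩
        have h1 : ((a • v) e : Lp ℝ 2 μ) = a • v e := rfl
        rw [h1]
        filter_upwards [Lp.coeFn_smul a (v e), hv e] with ω h1 h2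
        rw [h1, Pi.smul_apply, h2]
        simp only [grad, smul_eq_mul]
        ring }
  haveI : CompleteSpace (G.topologicalClosure : Submodule ℝ (HF μ E)) :=
    G.isClosed_topologicalClosure.completeSpace_coe
  obtain ⟨g, hg, m', hm', hsum⟩ :=
    (G.topologicalClosure).exists_add_mem_mem_orthogonal (cl c hcL)
  -- orthogonality to the constants in the second variable
  have horth : ∀ ψ : Ω → ℝ, Measurable ψ → (∃ B : ℝ, ∀ ω, |ψ ω| ≤ B) →
      ∑ e, ∫ ω, (m' e : Ω → ℝ) ω * ψ ω ∂μ = 0 := by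
    intro ψ hψ hb
    have hL : MemLp ψ 2 μ := memLp_bdd hψ hb
    have hLa : ∀ e, MemLp (fun ω => (fun ω (e : E) => ψ (T ω e)) ω e) 2 μ := fun e =>
      memLp_comp hM hL e
    have hLb : ∀ e : E, MemLp (fun ω => (fun ω (_ : E) => ψ ω) ω e) 2 μ := fun _ => hL
    set a : HF μ E := cl (fun ω (e : E) => ψ (T ω e)) hLa with ha
    set b : HF μ E := cl (fun ω (_ : E) => ψ ω) hLb with hb'
    -- first relation
    have r1 : ⟪a - b, m'⟫_ℝ = 0 := by
      have hmem : a - b ∈ G := by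
        refine ⟨ψ, hψ, hb, fun e => ?_⟩
        have h1 : ((a - b) e : Lp ℝ 2 μ) = a e - b e := rfl
        rw [h1]
        filter_upwards [Lp.coeFn_sub (a e) (b e), cl_ae _ hLa e, cl_ae _ hLb e] with ω h1 h2 h3
        rw [h1, Pi.sub_apply, h2, h3]
        rfl
      exact (Submodule.mem_orthogonal _ _).1 hm' _ (G.le_topologicalClosure hmem)
    -- second relation
    have hanti : ∀ (w : Ω → E → ℝ) (hw : ∀ e, MemLp (fun ω => w ω e) 2 μ),
        (∀ e, ∀ᵐ ω ∂μ, w (T ω e) (rev e) = -w ω e) → ∀ v : HF μ E,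
        (∀ e, (v e : Ω → ℝ) =ᵐ[μ] fun ω => w ω e) → ⟪a + b, v⟫_ℝ = 0 := by
      intro w hw hwa v hv
      rw [inner_add_left, ha, hb', inner_cl, inner_cl]
      have e1 : ∀ e ∈ (Finset.univ : Finset E), ∫ ω, (v e : Ω → ℝ) ω * ψ (T ω e) ∂μ =
          ∫ ω, w ω e * ψ (T ω e) ∂μ := fun e _ => integral_congr_ae (by
        filter_upwards [hv e] with ω h
        rw [h])
      have e2 : ∀ e ∈ (Finset.univ : Finset E), ∫ ω, (v e : Ω → ℝ) ω * ψ ω ∂μ =
          ∫ ω, w ω e * ψ ω ∂μ := fun e _ => integral_congr_ae (by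
        filter_upwards [hv e] with ω h
        rw [h])
      rw [Finset.sum_congr rfl e1, Finset.sum_congr rfl e2, anti_sum hM w hw hwa ψ hψ]
      ring
    have r2 : ⟪a + b, m'⟫_ℝ = 0 := by
      have hG : G ≤ (ℝ ∙ (a + b))ᗮ := by
        rintro v ⟨φ, hφ, hφb, hv⟩
        rw [Submodule.mem_orthogonal_singleton_iff_inner_right]
        exact hanti (grad T φ) (memLp_grad hM (memLp_bdd hφ hφb)) (grad_anti hM φ) v hv
      have hK : G.topologicalClosure ≤ (ℝ ∙ (a + b))ᗮ :=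
        Submodule.topologicalClosure_minimal _ hG (Submodule.isClosed_orthogonal _)
      have hg0 : ⟪a + b, g⟫_ℝ = 0 :=
        Submodule.mem_orthogonal_singleton_iff_inner_right.1 (hK hg)
      have hc0 : ⟪a + b, cl c hcL⟫_ℝ = 0 := hanti c hcL hca _ (cl_ae c hcL)
      rw [hsum, inner_add_right, hg0, zero_add] at hc0
      exact hc0
    have r3 : ⟪b, m'⟫_ℝ = 0 := by
      rw [inner_sub_left] at r1
      rw [inner_add_left] at r2
      linarith
    rw [hb', inner_cl] at r3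
    exact r3
  -- the sum vanishes almost everywhere
  set s : Ω → ℝ := fun ω => ∑ e, (m' e : Ω → ℝ) ω with hs
  have hm'm : ∀ e, Measurable (m' e : Ω → ℝ) := fun e => (Lp.stronglyMeasurable (m' e)).measurable
  have hsm : Measurable s := Finset.measurable_sum _ fun e _ => hm'm e
  have hsL : MemLp s 2 μ := memLp_finset_sum _ fun e _ => Lp.memLp (m' e)
  have hs0 : ∀ᵐ ω ∂μ, s ω = 0 := by
    have hpos : ∀ ω, 0 < 1 + |s ω| := fun ω => by positivity
    have hφm : Measurable fun ω => s ω / (1 + |s ω|) :=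
      hsm.div (measurable_const.add hsm.abs)
    have hφb : ∃ B : ℝ, ∀ ω, |s ω / (1 + |s ω|)| ≤ B := ⟨1, fun ω => by
      rw [abs_div, abs_of_pos (hpos ω), div_le_one (hpos ω)]
      linarith⟩
    have hφL : MemLp (fun ω => s ω / (1 + |s ω|)) 2 μ := memLp_bdd hφm hφb
    have h0 := horth _ hφm hφb
    rw [← integral_finset_sum] at h0
    · have h1 : ∫ ω, s ω * (s ω / (1 + |s ω|)) ∂μ = 0 := by
        rw [← h0]
        refine integral_congr_ae (Filter.Eventually.of_forall fun ω => ?_)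
        show s ω * (s ω / (1 + |s ω|)) = ∑ e, (m' e : Ω → ℝ) ω * (s ω / (1 + |s ω|))
        rw [← Finset.sum_mul]
      have hnn : 0 ≤ fun ω => s ω * (s ω / (1 + |s ω|)) := fun ω => by
        show 0 ≤ s ω * (s ω / (1 + |s ω|))
        rw [← mul_div_assoc]
        exact div_nonneg (mul_self_nonneg _) (hpos ω).le
      have hint : Integrable (fun ω => s ω * (s ω / (1 + |s ω|))) μ :=
        MemLp.integrable_mul hsL hφL
      have h2 := (integral_eq_zero_iff_of_nonneg hnn hint).1 h1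
      filter_upwards [h2] with ω hω
      have hω' : s ω * (s ω / (1 + |s ω|)) = 0 := hω
      rcases mul_eq_zero.1 hω' with h | h
      · exact h
      · rcases div_eq_zero_iff.1 h with h | h
        · exact h
        · exact absurd h (hpos ω).ne'
    · intro e _
      exact MemLp.integrable_mul (Lp.memLp (m' e)) hφL
  have hcard : (0 : ℝ) < Fintype.card E := by exact_mod_cast Fintype.card_pos
  refine ⟨fun ω e => (m' e : Ω → ℝ) ω - (Fintype.card E : ℝ)⁻¹ * s ω, fun e =>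
    (hm'm e).sub (hsm.const_mul _), fun e => (Lp.memLp (m' e)).sub (hsL.const_mul _), ?_, ?_⟩
  · intro ω
    rw [Finset.sum_sub_distrib, Finset.sum_const, Finset.card_univ, nsmul_eq_mul, ← mul_assoc,
      mul_inv_cancel₀ hcard.ne', one_mul]
    exact sub_self _
  · intro ε hε
    have hg' : g ∈ closure (G : Set (HF μ E)) := by
      have := hg
      rwa [← SetLike.mem_coe, Submodule.topologicalClosure_coe] at this
    obtain ⟨v, hvG, hdist⟩ := Metric.mem_closure_iff.1 hg' (√ε) (Real.sqrt_pos.2 hε)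
    obtain ⟨ψ, hψ, hψb, hv⟩ := hvG
    refine ⟨ψ, hψ, hψb, ?_⟩
    have hnorm : ⟪g - v, g - v⟫_ℝ ≤ ε := by
      rw [real_inner_self_eq_norm_sq, ← dist_eq_norm]
      calc dist g v ^ 2 ≤ (√ε) ^ 2 := by gcongr
        _ = ε := Real.sq_sqrt hε.le
    have hae : ∀ᵐ ω ∂μ, ∀ e, c ω e - ((m' e : Ω → ℝ) ω - (Fintype.card E : ℝ)⁻¹ * s ω) -
        grad T ψ ω e = ((g - v) e : Ω → ℝ) ω := by
      rw [ae_all_iff]
      intro e
      have h1 : ((g - v) e : Lp ℝ 2 μ) = g e - v e := rfl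
      have h2 : (cl c hcL) e = g e + m' e := by rw [hsum]; rfl
      have h3 := cl_ae c hcL e
      rw [h2] at h3
      rw [h1]
      filter_upwards [h3, Lp.coeFn_add (g e) (m' e), Lp.coeFn_sub (g e) (v e), hv e, hs0]
        with ω k1 k2 k3 k4 k5
      rw [k3, Pi.sub_apply, k4, k5, ← k1, k2, Pi.add_apply]
      ring
    have e1 : ∫ ω, Vf (fun ω e => c ω e - ((m' e : Ω → ℝ) ω - (Fintype.card E : ℝ)⁻¹ * s ω) -
        grad T ψ ω e) ω ∂μ =
        (Fintype.card E : ℝ)⁻¹ * ∑ e, ∫ ω, ((g - v) e : Ω → ℝ) ω * ((g - v) e : Ω → ℝ) ω ∂μ := by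
      rw [← integral_finset_sum, ← integral_const_mul]
      · refine integral_congr_ae ?_
        filter_upwards [hae] with ω hω
        show (Fintype.card E : ℝ)⁻¹ * ∑ e, (c ω e - ((m' e : Ω → ℝ) ω -
          (Fintype.card E : ℝ)⁻¹ * s ω) - grad T ψ ω e) ^ 2 = _
        congr 1
        refine Finset.sum_congr rfl fun e _ => ?_
        rw [hω e, sq]
      · intro e _
        exact MemLp.integrable_mul (Lp.memLp ((g - v) e)) (Lp.memLp ((g - v) e))
    rw [e1, ← inner_eq]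
    have h1 : (Fintype.card E : ℝ)⁻¹ ≤ 1 := by
      apply inv_le_one_of_one_le₀
      exact_mod_cast Fintype.card_pos
    calc (Fintype.card E : ℝ)⁻¹ * ⟪g - v, g - v⟫_ℝ ≤ 1 * ⟪g - v, g - v⟫_ℝ :=
          mul_le_mul_of_nonneg_right h1 real_inner_self_nonneg
      _ ≤ ε := by rw [one_mul]; exact hnorm

end Pool.Agent.Helper18.PC.WEYL
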